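import Mathlib

/-!
# An elliptic curve over the rationals of positive rank that is dense at no prime

The curve is `E : y^2 = x^3 - 435 x^2 + 21025 x`.  Every rational point of `E` has an abscissa
which is a rational square (a 2-isogeny descent, where the three everywhere locally soluble
classes 5, 29, 145 are excluded by quadratic reciprocity and by a factorisation argument), while
for every prime `p` there is a point of `E` over `Q_p` whose abscissa is not a square in `Q_p`.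
-/

namespace Pool.Agent.Results.MP_86855d_nt.NowhereDense

open scoped LinearAlgebra.Projectivization
open scoped WeierstrassCurve.Affine

/-! ### The definitions used in the statement -/

/-- The point of the projective plane attached to a point of a Weierstrass curve over a field `K`:
`[x : y : 1]` for an affine point `(x, y)`, and `[0 : 1 : 0]` for the point at infinity. -/
noncomputable def toPlane {K : Type} [Field K] {E : WeierstrassCurve.Affine K} :
    E.Point → ℙ K (Fin 3 → K)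
  | .zero => Projectivization.mk K ![0, 1, 0] (fun h => one_ne_zero (congrFun h 1))
  | .some x y _ => Projectivization.mk K ![x, y, 1] (fun h => one_ne_zero (congrFun h 2))

/-- The `p`-adic topology on the projective plane over `ℚ_[p]`: the quotient topology of the
topology on the nonzero vectors of `ℚ_[p]³`. -/
@[reducible] noncomputable def planeTopology (p : ℕ) [Fact p.Prime] : TopologicalSpace (ℙ ℚ_[p] (Fin 3 → ℚ_[p])) :=
  TopologicalSpace.coinduced
    (fun v : {v : Fin 3 → ℚ_[p] // v ≠ 0} => Projectivization.mk ℚ_[p] v.1 v.2) inferInstance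

/-- The `p`-adic topology on `W(ℚ_[p])`: the subspace topology from the projective plane. -/
@[reducible] noncomputable def pointTopology (W : WeierstrassCurve ℚ) (p : ℕ) [Fact p.Prime] :
    TopologicalSpace (W⁄ℚ_[p]).Point :=
  TopologicalSpace.induced toPlane (planeTopology p)

open scoped Classical in
/-- `W(ℚ)` is dense in `W(ℚ_[p])` for the `p`-adic topology. -/
def IsDenseAt (W : WeierstrassCurve ℚ) (p : ℕ) [Fact p.Prime] : Prop :=
  @DenseRange (W⁄ℚ_[p]).Point (pointTopology W p) (W⁄ℚ).Point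
    (WeierstrassCurve.Affine.Point.baseChange (W' := W) ℚ ℚ_[p])


/-! ### Quartic residues -/

section residues

open NumberTheorySymbols




lemma quartic_aux1 {q : ℕ} [Fact q.Prime] (hq4 : q % 4 = 1) {p : ℤ}
    (hp : ∀ z : ZMod q, z ^ 4 ≠ (p : ZMod q)) {M e L : ℤ} (hMe : IsCoprime M e)
    (hqM : ¬ (q : ℤ) ∣ M)
    (h : p * L ^ 2 = M ^ 4 - 3 * q * M ^ 2 * e ^ 2 + q ^ 2 * e ^ 4) : False := by
  have hqp : Prime (q : ℤ) := Nat.prime_iff_prime_int.mp Fact.out
  have hMq : IsCoprime M (q : ℤ) := ((Prime.coprime_iff_not_dvd hqp).mpr hqM).symm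
  have hML : IsCoprime M L := by
    have h1 : IsCoprime M (q * e ^ 2) := hMq.mul_right hMe.pow_right
    have h2 : IsCoprime M ((q * e ^ 2) ^ 2 + M * (M ^ 3 - 3 * q * M * e ^ 2)) :=
      IsCoprime.add_mul_left_right h1.pow_right _
    have h3 : (q * e ^ 2) ^ 2 + M * (M ^ 3 - 3 * q * M * e ^ 2) = (p * L) * L := by linarith
    rw [h3] at h2
    exact h2.of_mul_right_right
  have heL : IsCoprime e L := by
    have h2 : IsCoprime e (M ^ 4 + e * (- 3 * q * M ^ 2 * e + q ^ 2 * e ^ 3)) :=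
      IsCoprime.add_mul_left_right hMe.symm.pow_right _
    have h3 : M ^ 4 + e * (- 3 * q * M ^ 2 * e + q ^ 2 * e ^ 3) = (p * L) * L := by linarith
    rw [h3] at h2
    exact h2.of_mul_right_right
  have hqL : IsCoprime (q : ℤ) L := by
    have h2 : IsCoprime (q : ℤ) (M ^ 4 + q * (- 3 * M ^ 2 * e ^ 2 + q * e ^ 4)) :=
      IsCoprime.add_mul_left_right hMq.symm.pow_right _
    have h3 : M ^ 4 + q * (- 3 * M ^ 2 * e ^ 2 + q * e ^ 4) = (p * L) * L := by linarith
    rw [h3] at h2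
    exact h2.of_mul_right_right
  have hML2 : IsCoprime (M * e) L := hML.mul_left heL
  have hUL : IsCoprime (M ^ 2 - q * e ^ 2) L := by
    have h1 : IsCoprime (q * (M * e) ^ 2 + L * (p * L)) L :=
      IsCoprime.add_mul_left_left (hqL.mul_left hML2.pow_left) _
    have h3 : q * (M * e) ^ 2 + L * (p * L) = (M ^ 2 - q * e ^ 2) * (M ^ 2 - q * e ^ 2) := by
      linarith
    rw [h3] at h1
    exact h1.of_mul_left_left
  have hodd : Odd L := by
    by_contra hL
    rw [Int.not_odd_iff_even] at hL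
    obtain ⟨k, hk⟩ := hL
    have hq2 : ((q : ℤ) : ZMod 2) = 1 := by
      have : (q : ZMod 2) = ((q % 2 : ℕ) : ZMod 2) := by simp
      have h2 : q % 2 = 1 := by omega
      rw [h2] at this
      simpa using this
    have h2 : ((p * L ^ 2 : ℤ) : ZMod 2) = ((M ^ 4 - 3 * q * M ^ 2 * e ^ 2 + q ^ 2 * e ^ 4 : ℤ) : ZMod 2) := by
      rw [h]
    have h3 : (L : ZMod 2) = 0 := by
      rw [hk]
      push_cast
      exact CharTwo.add_self_eq_zero _
    push_cast at h2
    rw [h3] at h2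
    push_cast at hq2
    rw [hq2] at h2
    have h4 : ¬ ((M : ZMod 2) = 0 ∧ (e : ZMod 2) = 0) := by
      rintro ⟨hm, he⟩
      have hm' := (ZMod.intCast_zmod_eq_zero_iff_dvd M 2).mp hm
      have he' := (ZMod.intCast_zmod_eq_zero_iff_dvd e 2).mp he
      have := hMe.isUnit_of_dvd' hm' he'
      rw [Int.isUnit_iff] at this
      norm_num at this
    revert h2 h4
    generalize (M : ZMod 2) = m
    generalize (e : ZMod 2) = n
    generalize (p : ZMod 2) = r
    revert m n r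
    decide
  have hlodd : Odd L.natAbs := Int.natAbs_odd.mpr hodd
  have g1 : ∀ a : ℤ, IsCoprime a L → a.gcd (L.natAbs : ℤ) = 1 := by
    intro a ha
    rw [← Int.isCoprime_iff_gcd_eq_one]
    rcases Int.natAbs_eq L with hL | hL
    · rw [← hL]; exact ha
    · have : (L.natAbs : ℤ) = -L := by omega
      rw [this]; exact ha.neg_right
  have hJ : J((q : ℤ) * (M * e) ^ 2 | L.natAbs) = J((M ^ 2 - q * e ^ 2) ^ 2 | L.natAbs) := by
    apply jacobiSym.mod_left'
    apply Int.ModEq.symm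
    rw [Int.modEq_iff_dvd]
    rw [Int.natAbs_dvd]
    exact ⟨-(p * L), by linarith⟩
  have hJ1 : J((M ^ 2 - q * e ^ 2) ^ 2 | L.natAbs) = 1 := jacobiSym.sq_one' (g1 _ hUL)
  have hJ2 : J((M * e) ^ 2 | L.natAbs) = 1 := jacobiSym.sq_one' (g1 _ hML2)
  rw [jacobiSym.mul_left, hJ1, hJ2, mul_one] at hJ
  have hrec := jacobiSym.quadratic_reciprocity_one_mod_four hq4 hlodd
  rw [hJ] at hrec
  have hsq := ZMod.isSquare_of_jacobiSym_eq_one hrec.symm
  obtain ⟨z, hz⟩ := hsq
  have hL2 : (L : ZMod q) ^ 2 = z ^ 4 := by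
    have : (L : ZMod q) ^ 2 = ((L.natAbs : ℤ) : ZMod q) ^ 2 := by
      rw [← Int.cast_pow, ← Int.cast_pow, Int.natAbs_sq]
    rw [this, hz]; ring
  have hLq : (L : ZMod q) ≠ 0 := by
    intro h0
    have := (ZMod.intCast_zmod_eq_zero_iff_dvd L q).mp h0
    have h5 := hqL.isUnit_of_dvd' dvd_rfl this
    exact hqp.not_isUnit h5
  have hz0 : z ≠ 0 := by
    rintro rfl
    apply hLq
    have : (L : ZMod q) ^ 2 = 0 := by rw [hL2]; ring
    exact pow_eq_zero_iff (two_ne_zero) |>.mp this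
  have hmod : (p : ZMod q) * z ^ 4 = (M : ZMod q) ^ 4 := by
    have h2 : ((p * L ^ 2 : ℤ) : ZMod q) = ((M ^ 4 - 3 * q * M ^ 2 * e ^ 2 + q ^ 2 * e ^ 4 : ℤ) : ZMod q) := by
      rw [h]
    push_cast at h2
    rw [hL2] at h2
    simpa using h2
  apply hp ((M : ZMod q) / z)
  rw [div_pow, div_eq_iff (pow_ne_zero 4 hz0), hmod]

lemma quartic_aux2 {q : ℕ} [Fact q.Prime] (hq4 : q % 4 = 1) {p : ℤ}
    (hp : ∀ z : ZMod q, z ^ 4 ≠ (p : ZMod q)) {M e L : ℤ} (hMe : IsCoprime M e)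
    (h : p * L ^ 2 = M ^ 4 - 3 * q * M ^ 2 * e ^ 2 + q ^ 2 * e ^ 4) : False := by
  by_cases hqM : (q : ℤ) ∣ M
  · have hqp : Prime (q : ℤ) := Nat.prime_iff_prime_int.mp Fact.out
    obtain ⟨M1, rfl⟩ := hqM
    have hqe : ¬ (q : ℤ) ∣ e := by
      intro hqe
      have := hMe.isUnit_of_dvd' (dvd_mul_right _ _) hqe
      exact hqp.not_isUnit this
    have hqp' : ¬ (q : ℤ) ∣ p := by
      intro hd
      apply hp 0
      rw [(ZMod.intCast_zmod_eq_zero_iff_dvd p q).mpr hd]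
      ring
    have hqL : (q : ℤ) ∣ L := by
      have h1 : (q : ℤ) ∣ p * L ^ 2 := by
        rw [h]
        exact ⟨q ^ 3 * M1 ^ 4 - 3 * q ^ 2 * M1 ^ 2 * e ^ 2 + q * e ^ 4, by ring⟩
      rcases hqp.dvd_or_dvd h1 with h2 | h2
      · exact absurd h2 hqp'
      · exact hqp.dvd_of_dvd_pow h2
    obtain ⟨L1, rfl⟩ := hqL
    have hq0 : (q : ℤ) ^ 2 ≠ 0 := pow_ne_zero 2 hqp.ne_zero
    have h3 : p * L1 ^ 2 = e ^ 4 - 3 * q * e ^ 2 * M1 ^ 2 + q ^ 2 * M1 ^ 4 := by
      apply mul_left_cancel₀ hq0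
      linarith
    exact quartic_aux1 hq4 hp (hMe.symm.of_mul_right_right) hqe h3
  · exact quartic_aux1 hq4 hp hMe hqM h


end residues


lemma zmod29_aux : ∀ m e z : ZMod 29, m ^ 2 + m * e - e ^ 2 = 0 →
    (m ^ 2 - m * e - e ^ 2 = z ^ 2 ∨ m ^ 2 - m * e - e ^ 2 = - z ^ 2 ∨
     m ^ 2 - m * e - e ^ 2 = 5 * z ^ 2 ∨ m ^ 2 - m * e - e ^ 2 = - (5 * z ^ 2)) →
    m ^ 2 - m * e - e ^ 2 = 0 := by
  decide +kernel

/-- product of coprime integers equal to a square times one prime -/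
lemma sq_or_five_sq {u v L : ℤ} (huv : IsCoprime u v) (h : u * v = 5 * L ^ 2) :
    ∃ z : ℤ, u = z ^ 2 ∨ u = - z ^ 2 ∨ u = 5 * z ^ 2 ∨ u = - (5 * z ^ 2) := by
  have h5 : Prime (5 : ℤ) := by norm_num
  have hd : (5 : ℤ) ∣ u * v := ⟨L ^ 2, h⟩
  rcases h5.dvd_or_dvd hd with ⟨u', rfl⟩ | ⟨v', rfl⟩
  · have h2 : u' * v = L ^ 2 := by linarith
    obtain ⟨z, hz⟩ := Int.sq_of_isCoprime (huv.of_mul_left_right) h2
    refine ⟨z, ?_⟩
    rcases hz with rfl | rfl
    · right; right; left; ring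
    · right; right; right; ring
  · have h2 : u * v' = L ^ 2 := by linarith
    obtain ⟨z, hz⟩ := Int.sq_of_isCoprime (huv.of_mul_right_right) h2
    refine ⟨z, ?_⟩
    rcases hz with rfl | rfl
    · left; ring
    · right; left; ring

lemma golden_coprime {M e : ℤ} (hMe : IsCoprime M e) :
    IsCoprime (M ^ 2 - M * e - e ^ 2) (M ^ 2 + M * e - e ^ 2) := by
  rw [Int.isCoprime_iff_gcd_eq_one]
  by_contra hne
  obtain ⟨r, hr, hd⟩ := Nat.exists_prime_and_dvd hne
  have hrp : Prime (r : ℤ) := Nat.prime_iff_prime_int.mp hr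
  have h1 : (r : ℤ) ∣ M ^ 2 - M * e - e ^ 2 := (Int.natCast_dvd_natCast.mpr hd).trans (Int.gcd_dvd_left ..)
  have h2 : (r : ℤ) ∣ M ^ 2 + M * e - e ^ 2 := (Int.natCast_dvd_natCast.mpr hd).trans (Int.gcd_dvd_right ..)
  have h3 : (r : ℤ) ∣ 2 * (M * e) := by
    have h4 := dvd_sub h2 h1
    have h5 : (M ^ 2 + M * e - e ^ 2) - (M ^ 2 - M * e - e ^ 2) = 2 * (M * e) := by ring
    rwa [h5] at h4
  have hnotM : ¬ (r : ℤ) ∣ M := by
    intro hM
    have : (r : ℤ) ∣ e ^ 2 := by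
      have h4 : (r : ℤ) ∣ M * (M + e) - (M ^ 2 + M * e - e ^ 2) := dvd_sub (hM.mul_right _) h2
      convert h4 using 1; ring
    have he := hrp.dvd_of_dvd_pow this
    exact hrp.not_isUnit (hMe.isUnit_of_dvd' hM he)
  have hnote : ¬ (r : ℤ) ∣ e := by
    intro he
    have : (r : ℤ) ∣ M ^ 2 := by
      have h4 : (r : ℤ) ∣ (M ^ 2 + M * e - e ^ 2) - e * (M - e) := dvd_sub h2 (he.mul_right _)
      convert h4 using 1; ring
    have hM := hrp.dvd_of_dvd_pow this
    exact hrp.not_isUnit (hMe.isUnit_of_dvd' hM he)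
  rcases hrp.dvd_or_dvd h3 with h4 | h4
  · -- r = 2
    have hr2 : r = 2 := by
      have : (r : ℤ) ∣ ((2 : ℕ) : ℤ) := by exact_mod_cast h4
      have := Int.natCast_dvd_natCast.mp this
      exact (Nat.prime_dvd_prime_iff_eq hr Nat.prime_two).mp this
    subst hr2
    have hMo : Odd M := by
      rw [← Int.not_even_iff_odd, even_iff_two_dvd]; exact_mod_cast hnotM
    have heo : Odd e := by
      rw [← Int.not_even_iff_odd, even_iff_two_dvd]; exact_mod_cast hnote
    have hev : Even (M ^ 2 + M * e - e ^ 2) := by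
      rw [even_iff_two_dvd]; exact_mod_cast h2
    have hod : Odd (M ^ 2 + M * e - e ^ 2) := by
      have := (hMo.pow (n := 2)).add_odd (hMo.mul heo)
      exact this.sub_odd (heo.pow (n := 2))
    exact (Int.not_even_iff_odd.mpr hod) hev
  · rcases hrp.dvd_or_dvd h4 with h5 | h5
    · exact hnotM h5
    · exact hnote h5

lemma golden_aux {M e L : ℤ} (hMe : IsCoprime M e)
    (h : 145 * L ^ 2 = (M ^ 2 - M * e - e ^ 2) * (M ^ 2 + M * e - e ^ 2))
    (h29 : (29 : ℤ) ∣ M ^ 2 + M * e - e ^ 2) : False := by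
  have hc := golden_coprime hMe
  obtain ⟨v', hv'⟩ := h29
  rw [hv'] at h hc
  have h2 : (M ^ 2 - M * e - e ^ 2) * v' = 5 * L ^ 2 := by linarith
  obtain ⟨z, hz⟩ := sq_or_five_sq (hc.of_mul_right_right) h2
  have h0 := zmod29_aux (M : ZMod 29) (e : ZMod 29) (z : ZMod 29) (by
    have : ((M ^ 2 + M * e - e ^ 2 : ℤ) : ZMod 29) = ((29 * v' : ℤ) : ZMod 29) := by rw [hv']
    push_cast at this
    rw [this]
    have h29 : (29 : ZMod 29) = 0 := by decide
    rw [h29, zero_mul]) (by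
    rcases hz with hz | hz | hz | hz
    · left; exact_mod_cast congrArg (Int.cast : ℤ → ZMod 29) hz
    · right; left; exact_mod_cast congrArg (Int.cast : ℤ → ZMod 29) hz
    · right; right; left; exact_mod_cast congrArg (Int.cast : ℤ → ZMod 29) hz
    · right; right; right; exact_mod_cast congrArg (Int.cast : ℤ → ZMod 29) hz)
  have h1 : (29 : ℤ) ∣ M ^ 2 - M * e - e ^ 2 := by
    have := (ZMod.intCast_zmod_eq_zero_iff_dvd (M ^ 2 - M * e - e ^ 2) 29).mp (by push_cast; exact h0)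
    exact_mod_cast this
  have hp : Prime (29 : ℤ) := by norm_num
  exact hp.not_isUnit (hc.isUnit_of_dvd' h1 (dvd_mul_right _ _))

lemma golden_quartic {M e L : ℤ} (hMe : IsCoprime M e)
    (h : 145 * L ^ 2 = M ^ 4 - 3 * M ^ 2 * e ^ 2 + e ^ 4) : False := by
  have h1 : 145 * L ^ 2 = (M ^ 2 - M * e - e ^ 2) * (M ^ 2 + M * e - e ^ 2) := by
    rw [h]; ring
  have hp : Prime (29 : ℤ) := by norm_num
  have hd : (29 : ℤ) ∣ (M ^ 2 - M * e - e ^ 2) * (M ^ 2 + M * e - e ^ 2) := by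
    rw [← h1]; exact ⟨5 * L ^ 2, by ring⟩
  rcases hp.dvd_or_dvd hd with h2 | h2
  · apply golden_aux (M := M) (e := -e) (L := L) hMe.neg_right
    · rw [h]; ring
    · have h5 : M ^ 2 + M * -e - (-e) ^ 2 = M ^ 2 - M * e - e ^ 2 := by ring
      rwa [h5]
  · exact golden_aux hMe h1 h2



lemma not_fourth_29 : ∀ z : ZMod 29, z ^ 4 ≠ ((5 : ℤ) : ZMod 29) := by decide

lemma not_fourth_5 : ∀ z : ZMod 5, z ^ 4 ≠ ((29 : ℤ) : ZMod 5) := by decide

/-- The descent: `d M² = m`, `n = e²`, with `d ∣ 145` squarefree. -/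
lemma descent_d {d : ℕ} (hd : d ∣ 145) {M e k : ℤ} (hMe : IsCoprime M e)
    (h : (d : ℤ) * k ^ 2 = (d * M ^ 2) ^ 2 - 435 * (d * M ^ 2) * e ^ 2 + 21025 * (e ^ 2) ^ 2) :
    d = 1 := by
  have hdd : d ∈ Nat.divisors 145 := Nat.mem_divisors.mpr ⟨hd, by norm_num⟩
  have h145 : Nat.divisors 145 = {1, 5, 29, 145} := by decide +kernel
  rw [h145] at hdd
  simp only [Finset.mem_insert, Finset.mem_singleton] at hdd
  rcases hdd with rfl | rfl | rfl | rfl
  · rfl
  · exfalso
    have : Fact (Nat.Prime 29) := ⟨by norm_num⟩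
    push_cast at h
    have h1 : (5 : ℤ) ∣ k ^ 2 := ⟨M ^ 4 - 87 * M ^ 2 * e ^ 2 + 841 * e ^ 4, by linarith⟩
    obtain ⟨L, rfl⟩ := (show Prime (5 : ℤ) by norm_num).dvd_of_dvd_pow h1
    apply quartic_aux2 (q := 29) (by norm_num) not_fourth_29 (M := M) (e := e) (L := L) hMe
    push_cast
    linarith
  · exfalso
    have : Fact (Nat.Prime 5) := ⟨by norm_num⟩
    push_cast at h
    have h1 : (29 : ℤ) ∣ k ^ 2 := ⟨M ^ 4 - 15 * M ^ 2 * e ^ 2 + 25 * e ^ 4, by linarith⟩
    obtain ⟨L, rfl⟩ := (show Prime (29 : ℤ) by norm_num).dvd_of_dvd_pow h1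
    apply quartic_aux2 (q := 5) (by norm_num) not_fourth_5 (M := M) (e := e) (L := L) hMe
    push_cast
    linarith
  · exfalso
    push_cast at h
    have h1 : (145 : ℤ) ∣ k ^ 2 := ⟨M ^ 4 - 3 * M ^ 2 * e ^ 2 + e ^ 4, by linarith⟩
    have h5 : (5 : ℤ) ∣ k := (show Prime (5 : ℤ) by norm_num).dvd_of_dvd_pow ((by norm_num : (5:ℤ) ∣ 145).trans h1)
    have h29 : (29 : ℤ) ∣ k := (show Prime (29 : ℤ) by norm_num).dvd_of_dvd_pow ((by norm_num : (29:ℤ) ∣ 145).trans h1)
    obtain ⟨L, rfl⟩ : (145 : ℤ) ∣ k := by omega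
    apply golden_quartic (M := M) (e := e) (L := L) hMe
    linarith

theorem isSquare_x {x y : ℚ} (h : y ^ 2 = x * (x ^ 2 - 435 * x + 21025)) : IsSquare x := by
  by_cases hx0 : x = 0
  · rw [hx0]; exact IsSquare.zero
  have hxpos : 0 < x := by
    by_contra hneg
    have hx : x < 0 := lt_of_le_of_ne (not_lt.mp hneg) hx0
    have h1 : 0 < x ^ 2 - 435 * x + 21025 := by nlinarith
    have h2 : x * (x ^ 2 - 435 * x + 21025) < 0 := mul_neg_of_neg_of_pos hx h1
    nlinarith [sq_nonneg y]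
  set m : ℤ := x.num with hm
  set n : ℕ := x.den with hn
  have hmpos : 0 < m := Rat.num_pos.mpr hxpos
  have hnpos : 0 < n := x.den_pos
  have hcop : IsCoprime m (n : ℤ) := by
    rw [Int.isCoprime_iff_nat_coprime]
    simpa using x.reduced
  have hxmn : x = (m : ℚ) / (n : ℚ) := (Rat.num_div_den x).symm
  have hn0 : (n : ℚ) ≠ 0 := by exact_mod_cast hnpos.ne'
  set Q : ℤ := m ^ 2 - 435 * m * n + 21025 * n ^ 2 with hQ
  have hZ : IsSquare ((n : ℤ) * (m * Q)) := by
    rw [← Rat.isSquare_intCast_iff]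
    refine ⟨y * n ^ 2, ?_⟩
    have h1 : y * (n : ℚ) ^ 2 * (y * n ^ 2) = y ^ 2 * n ^ 4 := by ring
    rw [h1, h, hxmn, hQ]
    push_cast
    field_simp
  obtain ⟨w, hw⟩ := hZ
  have hw2 : (n : ℤ) * (m * Q) = w ^ 2 := by rw [hw]; ring
  have hcop2 : IsCoprime (n : ℤ) (m * Q) := by
    apply IsCoprime.mul_right hcop.symm
    have h1 : IsCoprime (n : ℤ) (m ^ 2 + n * (-435 * m + 21025 * n)) :=
      IsCoprime.add_mul_left_right hcop.symm.pow_right _
    have h2 : m ^ 2 + n * (-435 * m + 21025 * n) = Q := by rw [hQ]; ring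
    rwa [h2] at h1
  have hnposZ : (0 : ℤ) < n := by exact_mod_cast hnpos
  obtain ⟨e, he⟩ := Int.sq_of_isCoprime hcop2 hw2
  have he' : (n : ℤ) = e ^ 2 := by
    rcases he with he | he
    · exact he
    · nlinarith [sq_nonneg e]
  obtain ⟨v, hv⟩ := Int.sq_of_isCoprime hcop2.symm (by rw [mul_comm]; exact hw2)
  have hv' : m * Q = v ^ 2 := by
    rcases hv with hv | hv
    · exact hv
    · have h1 : (0 : ℤ) ≤ n * (m * Q) := by rw [hw2]; positivity
      have h2 : 0 ≤ m * Q := nonneg_of_mul_nonneg_right h1 hnposZ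
      have h3 : v ^ 2 = 0 := by nlinarith [sq_nonneg v]
      rw [hv, h3]; ring
  obtain ⟨d, M, hdM, hdsq⟩ := Nat.sq_mul_squarefree m.natAbs
  have hmd : m = d * (M : ℤ) ^ 2 := by
    have : (m.natAbs : ℤ) = m := Int.natAbs_of_nonneg hmpos.le
    rw [← this, ← hdM]; push_cast; ring
  have hM0 : (M : ℤ) ≠ 0 := by
    rintro h0
    rw [hmd, h0] at hmpos
    simp at hmpos
  have hd0 : (d : ℤ) ≠ 0 := by
    rintro h0
    rw [hmd, h0] at hmpos
    simp at hmpos
  have hMv : (M : ℤ) ∣ v := by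
    rw [← Int.pow_dvd_pow_iff (two_ne_zero)]
    exact ⟨d * Q, by rw [← hv', hmd]; ring⟩
  obtain ⟨w1, rfl⟩ := hMv
  have h1 : (d : ℤ) * Q = w1 ^ 2 := by
    apply mul_left_cancel₀ (pow_ne_zero 2 hM0)
    rw [hmd] at hv'
    linarith
  have hdsqZ : Squarefree (d : ℤ) := Int.squarefree_natCast.mpr hdsq
  have hdw : (d : ℤ) ∣ w1 := by
    rw [← hdsqZ.dvd_pow_iff_dvd two_ne_zero]
    exact ⟨Q, h1.symm⟩
  obtain ⟨k, rfl⟩ := hdw
  have hQk : Q = d * k ^ 2 := by
    apply mul_left_cancel₀ hd0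
    rw [h1]; ring
  have hdn : IsCoprime (d : ℤ) n := by
    rw [hmd] at hcop
    exact hcop.of_mul_left_left
  have hd145 : (d : ℤ) ∣ 145 := by
    have h2 : (d : ℤ) ∣ (145 * n) ^ 2 := by
      have h3 : ((145 : ℤ) * n) ^ 2 = Q - m * (m - 435 * n) := by rw [hQ]; ring
      rw [h3, hQk]
      exact dvd_sub (dvd_mul_right _ _) ((hmd ▸ dvd_mul_right _ _ : (d : ℤ) ∣ m).mul_right _)
    have h4 := (hdsqZ.dvd_pow_iff_dvd two_ne_zero).mp h2
    exact hdn.dvd_of_dvd_mul_right h4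
  have hd145' : d ∣ 145 := by exact_mod_cast hd145
  have hMe : IsCoprime (M : ℤ) e := by
    rw [hmd, he'] at hcop
    have := hcop.of_mul_left_right
    exact (IsCoprime.pow_iff (by norm_num) (by norm_num)).mp this
  have hd1 : d = 1 := by
    apply descent_d hd145' hMe (k := k)
    rw [← hmd, ← he', ← hQk, hQ]
  refine ⟨(M : ℚ) / e, ?_⟩
  have he0 : (e : ℚ) ≠ 0 := by
    intro h0
    have : e = 0 := by exact_mod_cast h0
    rw [this] at he'
    simp at he'
    omega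
  have hnq : (n : ℚ) = (e : ℚ) ^ 2 := by exact_mod_cast he'
  have hmq : (m : ℚ) = (M : ℚ) ^ 2 := by
    rw [hmd, hd1]; push_cast; ring
  rw [hxmn, hnq, hmq]
  field_simp


/-! ### Character sums -/

section sums

open Finset




section charsum
variable {F : Type*} [Field F] [Fintype F] [DecidableEq F]

lemma sum_char_sq_sub (hF : ringChar F ≠ 2) {c : F} (hc : c ≠ 0) :
    ∑ x : F, quadraticChar F (x ^ 2 - c) = -1 := by
  have h1 : ∑ x : F, quadraticChar F (x ^ 2 - c)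
      = ∑ y : F, (quadraticChar F y + 1) * quadraticChar F (y - c) := by
    rw [← Finset.sum_fiberwise (s := univ) (g := fun x : F => x ^ 2)]
    refine Finset.sum_congr rfl fun y _ => ?_
    rw [← quadraticChar_card_sqrts hF y]
    rw [Finset.sum_congr (g := fun _ => quadraticChar F (y - c)) rfl]
    · rw [Finset.sum_const, nsmul_eq_mul]
      congr 2
      have : ({x : F | x ^ 2 = y} : Set F).toFinset = univ.filter (fun x : F => x ^ 2 = y) := by
        ext x; simp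
      rw [this]
    · intro x hx
      simp only [Finset.mem_filter, Finset.mem_univ, true_and] at hx
      rw [hx]
  rw [h1]
  simp only [add_mul, one_mul, Finset.sum_add_distrib]
  have h2 : ∑ y : F, quadraticChar F (y - c) = 0 := by
    rw [← quadraticChar_sum_zero hF]
    exact Equiv.sum_comp (Equiv.subRight c) (fun y => quadraticChar F y)
  have h3 : ∑ y : F, quadraticChar F y * quadraticChar F (y - c) = -1 := by
    rw [← Equiv.sum_comp (Equiv.mulLeft₀ c hc)]
    have hneg : quadraticChar F (-1) * quadraticChar F (-1) = 1 := by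
      rw [← map_mul]; simp
    have h4 : ∀ z : F, quadraticChar F (Equiv.mulLeft₀ c hc z) * quadraticChar F (Equiv.mulLeft₀ c hc z - c)
        = quadraticChar F (-1) * (quadraticChar F z * quadraticChar F (1 - z)) := by
      intro z
      simp only [Equiv.mulLeft₀_apply]
      have h5 : quadraticChar F c * quadraticChar F c = 1 := by
        rw [← sq]; exact quadraticChar_sq_one hc
      have h6 : c * z - c = c * (-1 * (1 - z)) := by ring
      rw [h6, map_mul, map_mul, map_mul]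
      linear_combination (quadraticChar F z * quadraticChar F (-1) * quadraticChar F (1 - z)) * h5
    simp only [h4]
    rw [← Finset.mul_sum]
    have h7 := jacobiSum_nontrivial_inv (quadraticChar_ne_one hF)
    rw [(quadraticChar_isQuadratic F).inv] at h7
    unfold jacobiSum at h7
    rw [h7]
    linear_combination (-1) * hneg
  rw [h2, h3]
  norm_num

lemma exists_nonsquare (hF : ringChar F ≠ 2) (a b : F) (hb : b ≠ 0)
    (hD : a ^ 2 - 4 * b ^ 2 ≠ 0) :
    ∃ x : F, quadraticChar F x = -1 ∧ quadraticChar F (x ^ 2 + a * x + b ^ 2) ≠ 1 := by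
  have h2 : (2 : F) ≠ 0 := Ring.two_ne_zero hF
  have hsum : ∑ x : F, quadraticChar F (x ^ 2 + a * x + b ^ 2) = -1 := by
    have hc : (a ^ 2 - 4 * b ^ 2) / 4 ≠ 0 := by
      apply div_ne_zero hD
      have : (4 : F) = 2 * 2 := by norm_num
      rw [this]; exact mul_ne_zero h2 h2
    rw [← sum_char_sq_sub hF hc, ← Equiv.sum_comp (Equiv.addRight (-(a / 2)))]
    refine Finset.sum_congr rfl fun x _ => ?_
    congr 1
    simp only [Equiv.coe_addRight]
    have h4 : (4 : F) ≠ 0 := by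
      have : (4 : F) = 2 * 2 := by norm_num
      rw [this]; exact mul_ne_zero h2 h2
    field_simp
    ring
  by_contra hcon
  push Not at hcon
  have hpos : ∀ x : F, 0 ≤ quadraticChar F (x ^ 2 + a * x + b ^ 2) + quadraticChar F x := by
    intro x
    by_cases hx : x = 0
    · subst hx
      have : (0 : F) ^ 2 + a * 0 + b ^ 2 = b ^ 2 := by ring
      rw [this, quadraticChar_sq_one' hb, quadraticChar_zero]
      norm_num
    · rcases quadraticChar_dichotomy hx with h | h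
      · rw [h]
        by_cases hg : x ^ 2 + a * x + b ^ 2 = 0
        · rw [hg, quadraticChar_zero]; norm_num
        · rcases quadraticChar_dichotomy hg with h' | h' <;> rw [h'] <;> norm_num
      · rw [hcon x h, h]; norm_num
  have := Finset.sum_nonneg (s := univ) fun x _ => hpos x
  rw [Finset.sum_add_distrib, hsum, quadraticChar_sum_zero hF] at this
  norm_num at this

end charsum


end sums

/-! ### Local points -/

section localpoints

open Polynomial




section padic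
variable {p : ℕ} [hp : Fact p.Prime]

lemma norm_lt_one_iff (a : ℤ_[p]) : ‖a‖ < 1 ↔ PadicInt.toZMod a = 0 := by
  rw [← RingHom.mem_ker, PadicInt.ker_toZMod, IsLocalRing.mem_maximalIdeal, PadicInt.mem_nonunits]

lemma norm_eq_one_of_ne {a : ℤ_[p]} (h : PadicInt.toZMod a ≠ 0) : ‖a‖ = 1 := by
  have h1 : ¬ ‖a‖ < 1 := by rw [norm_lt_one_iff]; exact h
  exact le_antisymm (PadicInt.norm_le_one a) (not_lt.mp h1)

lemma exists_root_quadratic (a b t : ℤ_[p]) (h : ‖t ^ 2 + a * t + b‖ < ‖2 * t + a‖ ^ 2) :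
    ∃ z : ℤ_[p], z ^ 2 + a * z + b = 0 ∧ ‖z - t‖ < ‖2 * t + a‖ := by
  have e1 : ∀ w : ℤ_[p], (aeval w) (X ^ 2 + C a * X + C b : ℤ_[p][X]) = w ^ 2 + a * w + b := by
    intro w; simp
  have e2 : ∀ w : ℤ_[p], (aeval w) (derivative (X ^ 2 + C a * X + C b : ℤ_[p][X])) = 2 * w + a := by
    intro w; simp; left; norm_num
  obtain ⟨z, hz, hz2, -⟩ := hensels_lemma (p := p) (R := ℤ_[p]) (F := X ^ 2 + C a * X + C b) (a := t)
    (by rw [e1, e2]; exact h)
  rw [e1] at hz
  rw [e2] at hz2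
  exact ⟨z, hz, hz2⟩

lemma exists_sqrt (u s : ℤ_[p]) (h : ‖s ^ 2 - u‖ < ‖2 * s‖ ^ 2) : ∃ z : ℤ_[p], z ^ 2 = u := by
  obtain ⟨z, hz, -⟩ := exists_root_quadratic 0 (-u) s (by simpa [sub_eq_add_neg] using h)
  exact ⟨z, by linear_combination hz⟩

lemma not_isSquare_of_residue {X : ℤ_[p]} (h : ¬ IsSquare (PadicInt.toZMod X)) :
    ¬ IsSquare (X : ℚ_[p]) := by
  rintro ⟨s, hs⟩
  have hs1 : ‖s‖ ≤ 1 := by
    by_contra hcon
    push Not at hcon
    have h1 : ‖(X : ℚ_[p])‖ = ‖s‖ * ‖s‖ := by rw [hs, norm_mul]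
    have h2 : ‖(X : ℚ_[p])‖ ≤ 1 := by rw [← PadicInt.norm_def]; exact PadicInt.norm_le_one X
    nlinarith
  obtain ⟨t, ht⟩ : ∃ t : ℤ_[p], (t : ℚ_[p]) = s := ⟨⟨s, hs1⟩, rfl⟩
  have h3 : X = t * t := by
    apply Subtype.ext
    rw [PadicInt.coe_mul, ht]
    exact hs
  apply h
  rw [h3, map_mul]
  exact ⟨_, rfl⟩

lemma coe_ofNat_int (n : ℕ) [n.AtLeastTwo] :
    (((OfNat.ofNat n : ℤ_[p])) : ℚ_[p]) = OfNat.ofNat n :=
  map_ofNat (PadicInt.Coe.ringHom (p := p)) n

lemma local_point_good (h2 : p ≠ 2) (h5 : p ≠ 5) (h29 : p ≠ 29) :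
    ∃ X Y : ℚ_[p], Y ^ 2 = X * (X ^ 2 - 435 * X + 21025) ∧ ¬ IsSquare X := by
  have hpp : p.Prime := hp.out
  have hnat : ∀ n : ℕ, ¬ p ∣ n → (n : ZMod p) ≠ 0 := by
    intro n hn h0
    exact hn ((ZMod.natCast_eq_zero_iff n p).mp h0)
  have hp145 : ((145 : ℕ) : ZMod p) ≠ 0 := by
    apply hnat
    intro hd
    have h145 : (145 : ℕ) = 5 * 29 := by norm_num
    rw [h145, hpp.dvd_mul] at hd
    rcases hd with hd | hd
    · exact h5 ((Nat.prime_dvd_prime_iff_eq hpp (by norm_num)).mp hd)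
    · exact h29 ((Nat.prime_dvd_prime_iff_eq hpp (by norm_num)).mp hd)
  have hp5 : ((5 : ℕ) : ZMod p) ≠ 0 := by
    apply hnat
    intro hd
    exact h5 ((Nat.prime_dvd_prime_iff_eq hpp (by norm_num)).mp hd)
  have hp29 : ((29 : ℕ) : ZMod p) ≠ 0 := by
    apply hnat
    intro hd
    exact h29 ((Nat.prime_dvd_prime_iff_eq hpp (by norm_num)).mp hd)
  have hp2 : ((2 : ℕ) : ZMod p) ≠ 0 := by
    apply hnat
    intro hd
    exact h2 ((Nat.prime_dvd_prime_iff_eq hpp (by norm_num)).mp hd)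
  push_cast at hp145 hp5 hp29 hp2
  have hF : ringChar (ZMod p) ≠ 2 := by
    rw [ZMod.ringChar_zmod_n]; exact h2
  have hD : (-435 : ZMod p) ^ 2 - 4 * 145 ^ 2 ≠ 0 := by
    have : (-435 : ZMod p) ^ 2 - 4 * 145 ^ 2 = 5 ^ 3 * 29 ^ 2 := by norm_num
    rw [this]
    exact mul_ne_zero (pow_ne_zero _ hp5) (pow_ne_zero _ hp29)
  obtain ⟨x, hx1, hx2⟩ := exists_nonsquare hF (-435 : ZMod p) 145 hp145 hD
  have hxns : ¬ IsSquare x := quadraticChar_neg_one_iff_not_isSquare.mp hx1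
  set X0 : ℤ_[p] := ((x.val : ℕ) : ℤ_[p]) with hX0
  have hX0x : PadicInt.toZMod X0 = x := by
    rw [hX0, map_natCast, ZMod.natCast_zmod_val]
  by_cases hg : x ^ 2 + -435 * x + 145 ^ 2 = 0
  · -- root case
    have hder : PadicInt.toZMod (2 * X0 + (-435)) ≠ 0 := by
      have h1 : PadicInt.toZMod (2 * X0 + (-435)) = 2 * x + (-435) := by
        rw [map_add, map_mul, map_neg, map_ofNat, map_ofNat, hX0x]
      rw [h1]
      intro h0
      apply hD
      have h3 : (-435 : ZMod p) ^ 2 - 4 * 145 ^ 2 = (2 * x + (-435)) ^ 2 - 4 * (x ^ 2 + -435 * x + 145 ^ 2) := by ring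
      rw [h3, h0, hg]; ring
    have hn1 := norm_eq_one_of_ne hder
    obtain ⟨z, hz, hz2⟩ := exists_root_quadratic (-435 : ℤ_[p]) (145 ^ 2) X0 (by
      rw [hn1, one_pow, norm_lt_one_iff]
      simp only [map_add, map_mul, map_pow, hX0x, map_neg, map_ofNat]
      exact hg)
    rw [hn1, norm_lt_one_iff, map_sub, sub_eq_zero, hX0x] at hz2
    refine ⟨(z : ℚ_[p]), 0, ?_, ?_⟩
    · have h1 : ((z ^ 2 + -435 * z + 145 ^ 2 : ℤ_[p]) : ℚ_[p]) = 0 := by rw [hz]; simp
      push_cast at h1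
      rw [coe_ofNat_int, coe_ofNat_int] at h1
      have h2 : (z : ℚ_[p]) ^ 2 - 435 * z + 21025 = 0 := by
        rw [← h1]; ring
      rw [h2]; ring
    · apply not_isSquare_of_residue
      rw [hz2]; exact hxns
  · have hgm : quadraticChar (ZMod p) (x ^ 2 + -435 * x + 145 ^ 2) = -1 := by
      rcases quadraticChar_dichotomy hg with h | h
      · exact absurd h hx2
      · exact h
    have hx0 : x ≠ 0 := by
      rintro rfl
      exact hxns IsSquare.zero
    have hprod : quadraticChar (ZMod p) (x * (x ^ 2 + -435 * x + 145 ^ 2)) = 1 := by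
      rw [map_mul, hx1, hgm]; norm_num
    obtain ⟨r, hr⟩ := (quadraticChar_one_iff_isSquare (mul_ne_zero hx0 hg)).mp hprod
    have hr0 : r ≠ 0 := by
      rintro rfl
      apply mul_ne_zero hx0 hg
      rw [hr]; ring
    set R0 : ℤ_[p] := ((r.val : ℕ) : ℤ_[p]) with hR0
    have hR0r : PadicInt.toZMod R0 = r := by
      rw [hR0, map_natCast, ZMod.natCast_zmod_val]
    have hder : PadicInt.toZMod (2 * R0) ≠ 0 := by
      rw [map_mul, hR0r, map_ofNat]
      exact mul_ne_zero hp2 hr0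
    have hn1 := norm_eq_one_of_ne hder
    obtain ⟨z, hz⟩ := exists_sqrt (X0 * (X0 ^ 2 + -435 * X0 + 145 ^ 2)) R0 (by
      rw [hn1, one_pow, norm_lt_one_iff]
      simp only [map_add, map_mul, map_pow, hX0x, map_neg, map_ofNat, map_sub, hR0r]
      rw [hr]; ring)
    refine ⟨(X0 : ℚ_[p]), (z : ℚ_[p]), ?_, ?_⟩
    · have h1 := congrArg (fun t : ℤ_[p] => (t : ℚ_[p])) hz
      push_cast at h1
      rw [coe_ofNat_int, coe_ofNat_int] at h1
      rw [h1]; ring
    · apply not_isSquare_of_residue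
      rw [hX0x]; exact hxns

end padic


end localpoints


section padic
variable {p : ℕ} [hp : Fact p.Prime]

lemma not_isSquare_p : ¬ IsSquare ((p : ℕ) : ℚ_[p]) := by
  rintro ⟨s, hs⟩
  have hp0 : ((p : ℕ) : ℚ_[p]) ≠ 0 := by exact_mod_cast hp.out.ne_zero
  have hs0 : s ≠ 0 := by
    rintro rfl
    apply hp0
    rw [hs]; ring
  obtain ⟨n, hn⟩ := Padic.padicNormE.image hs0
  have h1 : ‖((p : ℕ) : ℚ_[p])‖ = ‖s‖ * ‖s‖ := by rw [hs, norm_mul]
  rw [Padic.norm_p, hn] at h1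
  have hp1 : (1 : ℝ) < p := by exact_mod_cast hp.out.one_lt
  have hpne : (p : ℝ) ≠ 0 := by positivity
  push_cast at h1
  rw [← zpow_neg_one, ← zpow_add₀ hpne] at h1
  have := zpow_right_injective₀ (by positivity) hp1.ne' h1
  omega

end padic

lemma local_point_two : ∃ X Y : ℚ_[2], Y ^ 2 = X * (X ^ 2 - 435 * X + 21025) ∧ ¬ IsSquare X := by
  obtain ⟨z, hz⟩ := exists_sqrt (p := 2) 65545 1 (by
    have h1 : ((1 : ℤ_[2]) ^ 2 - 65545) = ((-65544 : ℤ) : ℤ_[2]) := by push_cast; norm_num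
    have h2 : ‖((-65544 : ℤ) : ℤ_[2])‖ ≤ (2 : ℝ) ^ (-(3 : ℤ)) := by
      have := (PadicInt.norm_int_le_pow_iff_dvd (p := 2) (k := -65544) (n := 3)).mpr (by norm_num)
      exact_mod_cast this
    have h3 : ‖(2 : ℤ_[2]) * 1‖ = (2 : ℝ)⁻¹ := by
      rw [mul_one]
      exact_mod_cast PadicInt.norm_p (p := 2)
    rw [h1, h3]
    refine lt_of_le_of_lt h2 ?_
    norm_num)
  refine ⟨5 / 4, 5 * z / 8, ?_, ?_⟩
  · have h1 := congrArg (fun t : ℤ_[2] => (t : ℚ_[2])) hz
    push_cast at h1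
    rw [coe_ofNat_int] at h1
    have h2 : (5 * (z : ℚ_[2]) / 8) ^ 2 = 25 * (z : ℚ_[2]) ^ 2 / 64 := by ring
    rw [h2, h1]; norm_num
  · rintro ⟨s, hs⟩
    have h5 : (5 : ℚ_[2]) = (2 * s) * (2 * s) := by
      have : (2 * s) * (2 * s) = 4 * (s * s) := by ring
      rw [this, ← hs]; ring
    have hn5 : ‖(5 : ℚ_[2])‖ ≤ 1 := by
      have := Padic.norm_int_le_one (p := 2) 5
      exact_mod_cast this
    have hs1 : ‖2 * s‖ ≤ 1 := by
      by_contra hcon
      push Not at hcon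
      have h1 : ‖(5 : ℚ_[2])‖ = ‖2 * s‖ * ‖2 * s‖ := by rw [← norm_mul, ← h5]
      nlinarith
    obtain ⟨t, ht⟩ : ∃ t : ℤ_[2], (t : ℚ_[2]) = 2 * s := ⟨⟨2 * s, hs1⟩, rfl⟩
    have h6 : (5 : ℤ_[2]) = t * t := by
      apply Subtype.ext
      rw [PadicInt.coe_mul, ht, ← h5]
      exact coe_ofNat_int 5
    have h7 : PadicInt.toZModPow (p := 2) 3 5 = PadicInt.toZModPow 3 t * PadicInt.toZModPow 3 t := by
      rw [h6, map_mul]
    rw [map_ofNat] at h7
    have h8 : ∀ r : ZMod (2 ^ 3), (5 : ZMod (2 ^ 3)) ≠ r * r := by decide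
    exact h8 _ h7

instance fact5 : Fact (Nat.Prime 5) := ⟨by norm_num⟩

lemma local_point_five : ∃ X Y : ℚ_[5], Y ^ 2 = X * (X ^ 2 - 435 * X + 21025) ∧ ¬ IsSquare X := by
  obtain ⟨z, hz⟩ := exists_sqrt (p := 5) 151 1 (by
    have h2 : PadicInt.toZMod (p := 5) (2 * 1) ≠ 0 := by
      rw [mul_one, map_ofNat]; decide
    rw [norm_eq_one_of_ne h2, one_pow, one_pow, norm_lt_one_iff]
    rw [map_sub, map_one, map_ofNat]; decide)
  refine ⟨5, 25 * z, ?_, ?_⟩
  · have h1 := congrArg (fun t : ℤ_[5] => (t : ℚ_[5])) hz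
    push_cast at h1
    rw [coe_ofNat_int] at h1
    have h2 : (25 * (z : ℚ_[5])) ^ 2 = 625 * (z : ℚ_[5]) ^ 2 := by ring
    rw [h2, h1]; norm_num
  · have := not_isSquare_p (p := 5)
    exact_mod_cast this

instance fact29 : Fact (Nat.Prime 29) := ⟨by norm_num⟩

lemma local_point_29 : ∃ X Y : ℚ_[29], Y ^ 2 = X * (X ^ 2 - 435 * X + 21025) ∧ ¬ IsSquare X := by
  obtain ⟨z, hz⟩ := exists_sqrt (p := 29) (-1) 12 (by
    have h2 : PadicInt.toZMod (p := 29) (2 * 12) ≠ 0 := by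
      rw [map_mul, map_ofNat, map_ofNat]; decide
    rw [norm_eq_one_of_ne h2, one_pow, norm_lt_one_iff]
    rw [map_sub, map_pow, map_neg, map_one, map_ofNat]; decide)
  refine ⟨261, 2523 * z, ?_, ?_⟩
  · have h1 := congrArg (fun t : ℤ_[29] => (t : ℚ_[29])) hz
    push_cast at h1
    have h2 : (2523 * (z : ℚ_[29])) ^ 2 = 6365529 * (z : ℚ_[29]) ^ 2 := by ring
    rw [h2, h1]; norm_num
  · rintro ⟨s, hs⟩
    apply not_isSquare_p (p := 29)
    refine ⟨s / 3, ?_⟩
    have : s / 3 * (s / 3) = (s * s) / 9 := by ring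
    rw [this, ← hs]; norm_num

theorem local_point (p : ℕ) [hp : Fact p.Prime] :
    ∃ X Y : ℚ_[p], Y ^ 2 = X * (X ^ 2 - 435 * X + 21025) ∧ ¬ IsSquare X := by
  by_cases h2 : p = 2
  · subst h2; exact local_point_two
  by_cases h5 : p = 5
  · subst h5; exact local_point_five
  by_cases h29 : p = 29
  · subst h29; exact local_point_29
  exact local_point_good h2 h5 h29

/-! ### The topological part -/

lemma isClosed_squares (p : ℕ) [Fact p.Prime] : IsClosed {x : ℚ_[p] | IsSquare x} := by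
  have hprop : IsProperMap (fun x : ℚ_[p] => x * x) := by
    rw [isProperMap_iff_tendsto_cocompact]
    refine ⟨by fun_prop, ?_⟩
    rw [← Metric.cobounded_eq_cocompact, ← tendsto_norm_atTop_iff_cobounded]
    simp only [norm_mul]
    exact Filter.Tendsto.atTop_mul_atTop₀ tendsto_norm_cobounded_atTop tendsto_norm_cobounded_atTop
  have h := hprop.isClosedMap.isClosed_range
  convert h using 1
  ext x
  constructor
  · rintro ⟨s, hs⟩; exact ⟨s, hs.symm⟩
  · rintro ⟨s, hs⟩; exact ⟨s, hs.symm⟩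

/-- The points of the plane off the line at infinity whose first affine coordinate is not
a square. -/
def nonsqSet (p : ℕ) [Fact p.Prime] : Set (ℙ ℚ_[p] (Fin 3 → ℚ_[p])) :=
  {P | ∃ (v : Fin 3 → ℚ_[p]) (hv : v ≠ 0), P = Projectivization.mk ℚ_[p] v hv ∧ v 2 ≠ 0 ∧
    ¬ IsSquare (v 0 / v 2)}

lemma mem_nonsqSet_mk {p : ℕ} [Fact p.Prime] {v : Fin 3 → ℚ_[p]} (hv : v ≠ 0) :
    Projectivization.mk ℚ_[p] v hv ∈ nonsqSet p ↔ v 2 ≠ 0 ∧ ¬ IsSquare (v 0 / v 2) := by
  constructor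
  · rintro ⟨w, hw, he, h2, h0⟩
    rw [Projectivization.mk_eq_mk_iff'] at he
    obtain ⟨a, ha⟩ := he
    have ha0 : a ≠ 0 := by
      rintro rfl
      apply hv
      rw [← ha, zero_smul]
    have e2 : v 2 = a * w 2 := by rw [← ha]; rfl
    have e0 : v 0 = a * w 0 := by rw [← ha]; rfl
    constructor
    · rw [e2]; exact mul_ne_zero ha0 h2
    · rw [e2, e0, mul_div_mul_left _ _ ha0]; exact h0
  · rintro ⟨h2, h0⟩
    exact ⟨v, hv, rfl, h2, h0⟩

lemma isOpen_nonsqSet (p : ℕ) [Fact p.Prime] : @IsOpen _ (planeTopology p) (nonsqSet p) := by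
  unfold planeTopology
  rw [isOpen_coinduced]
  have hset : (fun v : {v : Fin 3 → ℚ_[p] // v ≠ 0} => Projectivization.mk ℚ_[p] v.1 v.2) ⁻¹'
      nonsqSet p = {v | v.1 2 ≠ 0 ∧ ¬ IsSquare (v.1 0 / v.1 2)} := by
    ext v
    exact mem_nonsqSet_mk v.2
  rw [hset]
  have hU : IsOpen {w : ℚ_[p] × ℚ_[p] | w.2 ≠ 0 ∧ ¬ IsSquare (w.1 / w.2)} := by
    have h1 : IsOpen {w : ℚ_[p] × ℚ_[p] | w.2 ≠ 0} := isOpen_ne_fun continuous_snd continuous_const
    have h2 : ContinuousOn (fun w : ℚ_[p] × ℚ_[p] => w.1 / w.2) {w | w.2 ≠ 0} :=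
      ContinuousOn.div continuous_fst.continuousOn continuous_snd.continuousOn (fun w hw => hw)
    have h3 := h2.isOpen_inter_preimage h1 (isClosed_squares p).isOpen_compl
    exact h3
  have hcont : Continuous (fun v : {v : Fin 3 → ℚ_[p] // v ≠ 0} => (v.1 0, v.1 2)) :=
    ((continuous_apply 0).comp continuous_subtype_val).prodMk
      ((continuous_apply 2).comp continuous_subtype_val)
  exact hU.preimage hcont

/-! ### The curve -/

/-- `y² = x³ - 435 x² + 21025 x` -/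
def curve : WeierstrassCurve ℚ := ⟨0, -435, 0, 21025, 0⟩

lemma curve_Δ : curve.Δ ≠ 0 := by
  simp only [curve, WeierstrassCurve.Δ, WeierstrassCurve.b₂, WeierstrassCurve.b₄,
    WeierstrassCurve.b₆, WeierstrassCurve.b₈]
  norm_num

lemma curve_isElliptic : curve.IsElliptic := ⟨isUnit_iff_ne_zero.mpr curve_Δ⟩

lemma curve_a₁ (K : Type) [Field K] [Algebra ℚ K] : (curve⁄K).a₁ = 0 :=
  map_zero (algebraMap ℚ K)

lemma curve_a₂ (K : Type) [Field K] [Algebra ℚ K] : (curve⁄K).a₂ = -435 := by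
  change algebraMap ℚ K (-435) = -435
  simp

lemma curve_a₃ (K : Type) [Field K] [Algebra ℚ K] : (curve⁄K).a₃ = 0 :=
  map_zero (algebraMap ℚ K)

lemma curve_a₄ (K : Type) [Field K] [Algebra ℚ K] : (curve⁄K).a₄ = 21025 := by
  change algebraMap ℚ K 21025 = 21025
  simp

lemma curve_a₆ (K : Type) [Field K] [Algebra ℚ K] : (curve⁄K).a₆ = 0 :=
  map_zero (algebraMap ℚ K)

lemma equation_iff' (K : Type) [Field K] [Algebra ℚ K] (x y : K) :
    (curve⁄K).Equation x y ↔ y ^ 2 = x * (x ^ 2 - 435 * x + 21025) := by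
  rw [WeierstrassCurve.Affine.equation_iff, curve_a₁, curve_a₂, curve_a₃, curve_a₄, curve_a₆]
  constructor
  · intro h; linear_combination h
  · intro h; linear_combination h

lemma nonsingular_of_eq (K : Type) [Field K] [Algebra ℚ K] {x y : K}
    (h : y ^ 2 = x * (x ^ 2 - 435 * x + 21025)) : (curve⁄K).Nonsingular x y := by
  have := curve_isElliptic
  have h2 : (WeierstrassCurve.map curve (algebraMap ℚ K)).IsElliptic := inferInstance
  have h3 : (curve⁄K).IsElliptic := h2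
  rw [← WeierstrassCurve.Affine.equation_iff_nonsingular, equation_iff']
  exact h

theorem not_dense (p : ℕ) [Fact p.Prime] : ¬ IsDenseAt curve p := by
  classical
  intro hd
  obtain ⟨X, Y, hXY, hX⟩ := local_point p
  set Q : (curve⁄ℚ_[p]).Point := WeierstrassCurve.Affine.Point.some X Y (nonsingular_of_eq ℚ_[p] hXY) with hQ
  let _ := pointTopology curve p
  have hopen : IsOpen (toPlane ⁻¹' (nonsqSet p) : Set (curve⁄ℚ_[p]).Point) :=
    isOpen_induced (t := planeTopology p) (isOpen_nonsqSet p)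
  have hQmem : Q ∈ (toPlane ⁻¹' (nonsqSet p) : Set (curve⁄ℚ_[p]).Point) := by
    show toPlane Q ∈ nonsqSet p
    rw [hQ, toPlane, mem_nonsqSet_mk]
    simpa using hX
  obtain ⟨P, hP⟩ := DenseRange.exists_mem_open hd hopen ⟨Q, hQmem⟩
  rcases P with _ | ⟨x, y, hxy⟩
  · change toPlane (WeierstrassCurve.Affine.Point.zero : (curve⁄ℚ_[p]).Point) ∈ nonsqSet p at hP
    rw [toPlane, mem_nonsqSet_mk] at hP
    simp at hP
  · have hsq : IsSquare x := isSquare_x ((equation_iff' ℚ x y).mp hxy.1)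
    change toPlane _ ∈ nonsqSet p at hP
    rw [WeierstrassCurve.Affine.Point.map_some, toPlane, mem_nonsqSet_mk] at hP
    apply hP.2
    simp only [Matrix.cons_val_zero, Matrix.cons_val, div_one]
    exact hsq.map _

/-- The duplication formula. -/
lemma double_some {x y : ℚ} (h : (curve⁄ℚ).Nonsingular x y) (hy : y ≠ 0) :
    ∃ (y' : ℚ) (h' : (curve⁄ℚ).Nonsingular (((x ^ 2 - 21025) / (2 * y)) ^ 2) y'),
      WeierstrassCurve.Affine.Point.some x y h + WeierstrassCurve.Affine.Point.some x y h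
        = WeierstrassCurve.Affine.Point.some _ y' h' := by
  have heq := (equation_iff' ℚ x y).mp h.1
  have hneg : (curve⁄ℚ).negY x y = -y := by
    rw [WeierstrassCurve.Affine.negY, curve_a₁, curve_a₃]; ring
  have hyne : y ≠ (curve⁄ℚ).negY x y := by
    rw [hneg]
    intro h0
    apply hy
    linarith
  have hslope : (curve⁄ℚ).slope x x y y = (3 * x ^ 2 - 870 * x + 21025) / (2 * y) := by
    rw [WeierstrassCurve.Affine.slope_of_Y_ne rfl hyne, hneg, curve_a₁, curve_a₂, curve_a₄]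
    congr 1 <;> ring
  have hX : (curve⁄ℚ).addX x x ((curve⁄ℚ).slope x x y y) = ((x ^ 2 - 21025) / (2 * y)) ^ 2 := by
    rw [hslope, WeierstrassCurve.Affine.addX, curve_a₁, curve_a₂]
    have h2y : (2 * y) ≠ 0 := by positivity
    rw [div_pow, div_pow, eq_div_iff (pow_ne_zero 2 h2y)]
    have h3 : ((3 * x ^ 2 - 870 * x + 21025) ^ 2 / (2 * y) ^ 2 + 0 * ((3 * x ^ 2 - 870 * x + 21025) / (2 * y)) - -435 - x - x) * (2 * y) ^ 2
      = (3 * x ^ 2 - 870 * x + 21025) ^ 2 + (435 - 2 * x) * 4 * y ^ 2 := by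
      field_simp
      ring
    rw [h3, heq]
    ring
  rw [WeierstrassCurve.Affine.Point.add_self_of_Y_ne hyne]
  refine ⟨_, hX ▸ (WeierstrassCurve.Affine.nonsingular_add h h fun hxy => hyne hxy.right), ?_⟩
  simp only [WeierstrassCurve.Affine.Point.some.injEq]
  exact ⟨hX, trivial⟩

lemma padicNorm_quad {x : ℚ} (hx : 1 < padicNorm 2 x) :
    padicNorm 2 (x ^ 2 - 21025) = padicNorm 2 x ^ 2 ∧
    padicNorm 2 (x ^ 2 - 435 * x + 21025) = padicNorm 2 x ^ 2 := by
  have hint : ∀ k : ℤ, padicNorm 2 (k : ℚ) ≤ 1 := fun k => padicNorm.of_int k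
  have hsq : padicNorm 2 (x ^ 2) = padicNorm 2 x ^ 2 := by
    rw [sq, padicNorm.mul, sq]
  have hlt : padicNorm 2 x < padicNorm 2 x ^ 2 := by nlinarith
  constructor
  · have h1 : padicNorm 2 (-21025 : ℚ) ≤ 1 := by exact_mod_cast hint (-21025)
    rw [sub_eq_add_neg, padicNorm.add_eq_max_of_ne (by rw [hsq]; intro h; linarith), hsq]
    exact max_eq_left (by linarith)
  · have h1 : padicNorm 2 (-435 * x + 21025 : ℚ) ≤ padicNorm 2 x := by
      refine (padicNorm.nonarchimedean).trans ?_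
      apply max_le
      · rw [padicNorm.mul]
        have h3 : padicNorm 2 (-435 : ℚ) ≤ 1 := by exact_mod_cast hint (-435)
        have h4 : 0 ≤ padicNorm 2 x := padicNorm.nonneg x
        nlinarith
      · have h3 : padicNorm 2 (21025 : ℚ) ≤ 1 := by exact_mod_cast hint (21025)
        linarith
    have h2 : x ^ 2 - 435 * x + 21025 = x ^ 2 + (-435 * x + 21025) := by ring
    rw [h2, padicNorm.add_eq_max_of_ne (by rw [hsq]; intro h; linarith), hsq]
    exact max_eq_left (by linarith)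

lemma padicNorm_two_sq : padicNorm 2 (2 : ℚ) = 1 / 2 := by
  have := padicNorm.padicNorm_p (p := 2) (by norm_num)
  rw [one_div]
  exact_mod_cast this

/-- Doubling multiplies the 2-adic absolute value of the abscissa by 4 (near infinity). -/
lemma padicNorm_double {x y : ℚ} (h : y ^ 2 = x * (x ^ 2 - 435 * x + 21025))
    (hx : 1 < padicNorm 2 x) :
    y ≠ 0 ∧ padicNorm 2 (((x ^ 2 - 21025) / (2 * y)) ^ 2) = 4 * padicNorm 2 x := by
  obtain ⟨h1, h2⟩ := padicNorm_quad hx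
  have hy2 : padicNorm 2 y ^ 2 = padicNorm 2 x ^ 3 := by
    have : padicNorm 2 (y ^ 2) = padicNorm 2 x ^ 3 := by
      rw [h, padicNorm.mul, h2]; ring
    rw [← this, sq, sq, padicNorm.mul]
  have hxpos : 0 < padicNorm 2 x := by linarith
  have hy0 : y ≠ 0 := by
    rintro rfl
    rw [padicNorm.zero] at hy2
    have : 0 < padicNorm 2 x ^ 3 := by positivity
    rw [← hy2] at this
    norm_num at this
  refine ⟨hy0, ?_⟩
  have hsq : ∀ t : ℚ, padicNorm 2 (t ^ 2) = padicNorm 2 t ^ 2 := by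
    intro t; rw [sq, padicNorm.mul, sq]
  rw [hsq, padicNorm.div, padicNorm.mul, h1, padicNorm_two_sq, div_pow, mul_pow, hy2]
  field_simp
  norm_num

/-- The abscissa of the point is 2-adically large. -/
def Big (N : ℚ) (P : (curve⁄ℚ).Point) : Prop :=
  ∃ (x y : ℚ) (h : (curve⁄ℚ).Nonsingular x y), P = WeierstrassCurve.Affine.Point.some x y h ∧
    padicNorm 2 x = N

lemma big_double {N : ℚ} (hN : 1 < N) {P : (curve⁄ℚ).Point} (hP : Big N P) :
    Big (4 * N) (P + P) := by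
  obtain ⟨x, y, h, rfl, hx⟩ := hP
  have heq := (equation_iff' ℚ x y).mp h.1
  obtain ⟨hy, hn⟩ := padicNorm_double heq (by rw [hx]; exact hN)
  obtain ⟨y', h', hd⟩ := double_some h hy
  exact ⟨_, y', h', hd, by rw [hn, hx]⟩

lemma big_pow {N : ℚ} (hN : 1 < N) {P : (curve⁄ℚ).Point} (hP : Big N P) (k : ℕ) :
    Big (4 ^ k * N) ((2 ^ k : ℕ) • P) := by
  induction k with
  | zero => simpa using hP
  | succ k ih =>
    have h1 : 1 < 4 ^ k * N := by
      have : (1 : ℚ) ≤ 4 ^ k := one_le_pow₀ (by norm_num)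
      nlinarith
    have h2 := big_double h1 ih
    have h3 : (2 ^ k : ℕ) • P + (2 ^ k : ℕ) • P = (2 ^ (k + 1) : ℕ) • P := by
      rw [← add_nsmul]; congr 1; ring
    rw [h3] at h2
    have h4 : 4 * (4 ^ k * N) = 4 ^ (k + 1) * N := by ring
    rwa [h4] at h2

lemma big_inj {N N' : ℚ} {P : (curve⁄ℚ).Point} (h : Big N P) (h' : Big N' P) : N = N' := by
  obtain ⟨x, y, hn, rfl, hx⟩ := h
  obtain ⟨x', y', hn', he, hx'⟩ := h'
  simp only [WeierstrassCurve.Affine.Point.some.injEq] at he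
  rw [← hx, ← hx', he.1]

lemma big_infinite_order {N : ℚ} (hN : 1 < N) {P : (curve⁄ℚ).Point} (hP : Big N P) :
    ∀ a : ℤ, a ≠ 0 → a • P ≠ 0 := by
  intro a ha h0
  have hfin : IsOfFinAddOrder P := by
    rw [isOfFinAddOrder_iff_zsmul_eq_zero]
    exact ⟨a, ha, h0⟩
  have hfs : (Set.range (fun n : ℕ => n • P)).Finite := by
    have := hfin.finite_multiples
    convert this using 1
    ext Q
    simp [AddSubmonoid.mem_multiples_iff]
  have hinj : Function.Injective (fun k : ℕ => (2 ^ k : ℕ) • P) := by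
    intro k l hkl
    simp only at hkl
    have h1 := big_pow hN hP k
    have h2 := big_pow hN hP l
    rw [hkl] at h1
    have h3 := big_inj h1 h2
    have h4 : (4 : ℚ) ^ k = 4 ^ l := mul_right_cancel₀ (by positivity) h3
    exact pow_right_injective₀ (by norm_num) (by norm_num) h4
  have hinf := Set.infinite_range_of_injective hinj
  apply hinf
  apply hfs.subset
  rintro _ ⟨k, rfl⟩
  exact ⟨2 ^ k, rfl⟩

lemma rank_pos : 0 < Module.rank ℤ (curve⁄ℚ).Point := by
  rw [pos_iff_ne_zero, Ne, rank_eq_zero_iff]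
  push Not
  have heq : (125831456856919 / 17902480896 : ℚ) ^ 2 = (3809481841 / 6843456) *
      ((3809481841 / 6843456) ^ 2 - 435 * (3809481841 / 6843456) + 21025) := by norm_num
  refine ⟨WeierstrassCurve.Affine.Point.some _ _ (nonsingular_of_eq ℚ heq), ?_⟩
  apply big_infinite_order (N := 64) (by norm_num)
  refine ⟨_, _, _, rfl, ?_⟩
  have h1 : (3809481841 / 6843456 : ℚ) = (3809481841 / 106929 : ℚ) / (2 * 2 * 2 * 2 * 2 * 2) := by norm_num
  have h2 : padicNorm 2 (3809481841 / 106929 : ℚ) = 1 := by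
    rw [padicNorm.div]
    have h3 : padicNorm 2 ((3809481841 : ℕ) : ℚ) = 1 := by
      rw [padicNorm.nat_eq_one_iff]; norm_num
    have h4 : padicNorm 2 ((106929 : ℕ) : ℚ) = 1 := by
      rw [padicNorm.nat_eq_one_iff]; norm_num
    push_cast at h3 h4
    rw [h3, h4]; norm_num
  rw [h1, padicNorm.div, h2]
  simp only [padicNorm.mul, padicNorm_two_sq]
  norm_num


/-- There is an elliptic curve over `ℚ` of positive rank whose group of rational points is dense
in the group of `p`-adic points for no prime `p`. -/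
theorem result : ∃ W : WeierstrassCurve ℚ, W.IsElliptic ∧
    0 < Module.rank ℤ (W⁄ℚ).Point ∧
    ∀ (p : ℕ) [Fact p.Prime], ¬ IsDenseAt W p :=
  ⟨curve, curve_isElliptic, rank_pos, fun p _ => not_dense p⟩

end Pool.Agent.Results.MP_86855d_nt.NowhereDense
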